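import Pool.Agent.R520.Expo2

set_option autoImplicit false

/-!
# The exponents of the second-order term of the worst-case dicut ratio

Both exponents equal `-2/3`. The bounds `k ν^(-2/3) ≤ c_ν - 1/4 ≤ K ν^(-2/3)` come from the grid digraph and the
level argument of the files `Pool.Agent.Helper883.Dicut.*`, after a passage from nonnegative to positive weights.
-/

namespace Pool.Agent.Results.MP_0d4af9_co.BothExponents

open Pool.Agent.R520.Expo2

/-- `α_L = α_U = -2/3`. -/
theorem result : alphaL = -2 / 3 ∧ alphaU = -2 / 3 :=
  ⟨alphaL_eq, alphaU_eq⟩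

end Pool.Agent.Results.MP_0d4af9_co.BothExponents
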